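import Pool.Agent.H94.LP7.M14

/-!
# V7, block BETA, module Num: the numbers of the block configuration

`q = M * r * q₀` blocks of `c` of the `z`-variables; the proportion `ε₀` of the variables is left over.
-/

namespace Pool.Agent.V7.BE

open Finset

theorem lam_le (M c : ℕ) :
    (lam M c : ℝ) ≤ (c : ℝ) ^ M / ((2 * M - 1).choose M : ℝ) := by
  unfold lam
  have h := @Nat.cast_div_le ℝ _ _ _ (c ^ M) ((2 * M - 1).choose M)
  push_cast at h
  exact h

theorem choose_le_div (q i : ℕ) : (q.choose i : ℝ) ≤ (q : ℝ) ^ i / (i.factorial : ℝ) :=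
  Nat.choose_le_pow_div i q

theorem pow_sub_le_choose (q i : ℕ) : ((q - i : ℕ) : ℝ) ^ i / (i.factorial : ℝ) ≤ (q.choose i : ℝ) := by
  rw [div_le_iff₀ (by positivity)]
  have h1 : (q - i) ^ i ≤ q.descFactorial i := by
    refine le_trans (Nat.pow_le_pow_left ?_ i) (Nat.pow_sub_le_descFactorial q i)
    omega
  have h2 := Nat.descFactorial_eq_factorial_mul_choose q i
  have h3 : (q - i) ^ i ≤ q.choose i * i.factorial := by
    rw [mul_comm]
    rw [← h2]
    exact h1
  exact_mod_cast h3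

/-- The bound for the number of points of the kinds `(J, T)`. -/
theorem num_pts {M c q C : ℕ} (hc : 1 ≤ c) (hC : C = (2 * M - 1).choose M) (hCpos : 1 ≤ C)
    {x ε₀ : ℝ} (hx : 0 ≤ x) (h0 : 0 ≤ ε₀) (h1 : ε₀ ≤ 1) (hq : (q : ℝ) * c ≤ (1 - ε₀) * x) {i : ℕ}
    (hi : i + 1 ≤ M) :
    (lam M c : ℝ) * (q.choose (i + 1) : ℝ) ≤
      (c : ℝ) ^ (M - 1 - i) / (C * (i + 1).factorial) * x ^ (i + 1) -
        ε₀ / (C * M.factorial) * x ^ (i + 1) := by
  have hc' : (0 : ℝ) < c := by exact_mod_cast hc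
  have hC' : (0 : ℝ) < C := by exact_mod_cast hCpos
  have hl := lam_le M c
  rw [← hC] at hl
  have hch := choose_le_div q (i + 1)
  have hf : (0 : ℝ) < ((i + 1).factorial : ℝ) := by positivity
  have e1 : (c : ℝ) ^ M = (c : ℝ) ^ (M - 1 - i) * (c : ℝ) ^ (i + 1) := by
    rw [← pow_add]
    congr 1
    omega
  have h2 : (lam M c : ℝ) * (q.choose (i + 1) : ℝ) ≤
      (c : ℝ) ^ M / C * ((q : ℝ) ^ (i + 1) / ((i + 1).factorial : ℝ)) :=
    mul_le_mul hl hch (by positivity) (by positivity)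
  have h3 : (c : ℝ) ^ M / C * ((q : ℝ) ^ (i + 1) / ((i + 1).factorial : ℝ)) =
      (c : ℝ) ^ (M - 1 - i) / (C * (i + 1).factorial) * ((q : ℝ) * c) ^ (i + 1) := by
    rw [e1, mul_pow]
    field_simp
  have h4 : ((q : ℝ) * c) ^ (i + 1) ≤ ((1 - ε₀) * x) ^ (i + 1) :=
    pow_le_pow_left₀ (by positivity) hq _
  have h5 : ((1 - ε₀) * x) ^ (i + 1) ≤ (1 - ε₀) * x ^ (i + 1) := by
    rw [mul_pow]
    apply mul_le_mul_of_nonneg_right _ (by positivity)
    calc (1 - ε₀) ^ (i + 1) ≤ (1 - ε₀) ^ 1 :=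
          pow_le_pow_of_le_one (by linarith only [h1]) (by linarith only [h0]) (by omega)
      _ = 1 - ε₀ := pow_one _
  have h6 : (0 : ℝ) ≤ (c : ℝ) ^ (M - 1 - i) / (C * (i + 1).factorial) := by positivity
  have h7 := mul_le_mul_of_nonneg_left (h4.trans h5) h6
  have h8 : ε₀ / (C * M.factorial) ≤
      (c : ℝ) ^ (M - 1 - i) / (C * (i + 1).factorial) * ε₀ := by
    have h9 : (1 : ℝ) ≤ (c : ℝ) ^ (M - 1 - i) := one_le_pow₀ (by exact_mod_cast hc)
    have h10 : (((i + 1).factorial : ℕ) : ℝ) ≤ (M.factorial : ℝ) := by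
      exact_mod_cast Nat.factorial_le hi
    have h11 : ε₀ / (C * M.factorial) ≤ ε₀ / (C * (i + 1).factorial) := by
      apply div_le_div_of_nonneg_left h0 (by positivity)
      exact mul_le_mul_of_nonneg_left h10 hC'.le
    refine h11.trans ?_
    rw [div_mul_eq_mul_div]
    apply div_le_div_of_nonneg_right _ (by positivity)
    nlinarith only [h0, h9]
  have h12 := mul_le_mul_of_nonneg_right h8 (pow_nonneg hx (i + 1))
  calc (lam M c : ℝ) * (q.choose (i + 1) : ℝ)
      ≤ (c : ℝ) ^ (M - 1 - i) / (C * (i + 1).factorial) * ((q : ℝ) * c) ^ (i + 1) := by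
        rw [← h3]
        exact h2
    _ ≤ (c : ℝ) ^ (M - 1 - i) / (C * (i + 1).factorial) * ((1 - ε₀) * x ^ (i + 1)) := h7
    _ = (c : ℝ) ^ (M - 1 - i) / (C * (i + 1).factorial) * x ^ (i + 1) -
        (c : ℝ) ^ (M - 1 - i) / (C * (i + 1).factorial) * ε₀ * x ^ (i + 1) := by ring
    _ ≤ _ := by linarith only [h12]

/-- The final numerical statement. -/
theorem num_main (M c r : ℕ) (hM : 1 ≤ M) (hc : 1 ≤ c) (hr : 1 ≤ r) (k : ℕ) :
    ∃ ε₀ δ : ℝ, 0 < ε₀ ∧ ε₀ ≤ 1 ∧ 0 < δ ∧ δ ≤ 1 ∧ ∀ K : ℝ, 0 ≤ K → ∃ n₁ : ℕ, ∀ n : ℕ, n₁ ≤ n →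
      ∃ q₀ : ℕ, M * r * q₀ * c + k * c ≤ n ∧
        ((M * r * q₀ : ℕ) : ℝ) * c ≤ (1 - ε₀) * n ∧
        ∀ X : ℝ, X ≤ (c : ℝ) ^ k * (n : ℝ) ^ M / M.factorial + K * (n : ℝ) ^ (M - 1) →
          ∀ e N₀ : ℝ, 1 ≤ e → e ≤ (c : ℝ) ^ k →
            (1 - δ) * ((n : ℝ) ^ M / ((2 * M - 1).choose M * M.factorial)) ≤ N₀ →
            X - (c : ℝ) ^ k * (c : ℝ) ^ M * ((M * r * q₀).choose M : ℝ) +
              (lam M c * e * ((M * r * q₀).choose M : ℝ) - (q₀ : ℝ) ^ M) +
              e * ((c : ℝ) ^ k - e) < e * N₀ := by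
  have hc' : (1 : ℝ) ≤ c := by exact_mod_cast hc
  have hM' : (1 : ℝ) ≤ M := by exact_mod_cast hM
  have hr' : (1 : ℝ) ≤ r := by exact_mod_cast hr
  set C : ℕ := (2 * M - 1).choose M with hCdef
  have hCpos : 1 ≤ C := Nat.choose_pos (by omega)
  have hC' : (1 : ℝ) ≤ C := by exact_mod_cast hCpos
  have hfM : (1 : ℝ) ≤ (M.factorial : ℝ) := by exact_mod_cast Nat.factorial_pos M
  set b : ℝ := (c : ℝ) ^ k with hb
  have hb1 : 1 ≤ b := one_le_pow₀ hc'
  set w : ℝ := 2 * c * M * r with hw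
  have hw1 : 2 ≤ w := by
    have h1 : (1 : ℝ) ≤ c * M * r := by
      have := mul_le_mul hc' hM' (by norm_num) (by linarith only [hc'])
      have h2 := mul_le_mul this hr' (by norm_num) (by positivity)
      linarith only [h2]
    rw [hw]
    nlinarith only [h1]
  have hwpos : 0 < w := by linarith
  set A : ℝ := (1 / w) ^ M with hA
  have hApos : 0 < A := by positivity
  have hA1 : A ≤ 1 := by
    rw [hA]
    apply pow_le_one₀ (by positivity)
    rw [div_le_one hwpos]
    linarith only [hw1]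
  -- the choice of `ε₀`, `δ`
  set ε₀ : ℝ := A / (8 * M * b) with hε
  have hεpos : 0 < ε₀ := by positivity
  have hε1 : ε₀ ≤ 1 / 8 := by
    rw [hε, div_le_div_iff₀ (by positivity) (by norm_num)]
    have : (1 : ℝ) ≤ M * b := by nlinarith only [hM', hb1]
    nlinarith only [hA1, this]
  set δ : ℝ := A / (4 * b) with hδ
  have hδpos : 0 < δ := by positivity
  have hδ1 : δ ≤ 1 := by
    rw [hδ, div_le_one (by positivity)]
    nlinarith only [hb1, hA1, hεpos, hε1]
  refine ⟨ε₀, δ, hεpos, by linarith only [hεpos, hε1], hδpos, hδ1, fun K hK => ?_⟩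
  -- large `n`
  obtain ⟨n₁, hn₁⟩ := exists_nat_gt
    (((k * c : ℝ) + c * M * r + c * M) / ε₀ + 2 * (K + b * b + 1) / A + 1)
  refine ⟨n₁, fun n hn => ?_⟩
  set x : ℝ := (n : ℝ) with hx
  have hxn : (n₁ : ℝ) ≤ x := by
    rw [hx]
    exact_mod_cast hn
  have hpos1 : 0 ≤ ((k * c : ℝ) + c * M * r + c * M) / ε₀ := by positivity
  have hpos2 : 0 ≤ 2 * (K + b * b + 1) / A := by positivity
  have hx1 : 1 ≤ x := by linarith only [hn₁, hxn, hpos1, hpos2]
  have hx0 : 0 < x := by linarith only [hεpos, hε1, hn₁, hxn, hpos1, hpos2]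
  have hxa : (k * c : ℝ) + c * M * r + c * M ≤ ε₀ * x := by
    have : ((k * c : ℝ) + c * M * r + c * M) / ε₀ ≤ x := by linarith only [hεpos, hε1, hn₁, hxn, hpos2]
    rw [div_le_iff₀ hεpos] at this
    linarith only [this]
  have hxb : 2 * (K + b * b + 1) < A * x := by
    have : 2 * (K + b * b + 1) / A < x := by linarith only [hεpos, hε1, hn₁, hxn, hpos1]
    rw [div_lt_iff₀ hApos] at this
    linarith only [this]
  set cMr : ℝ := c * M * r with hcMr
  have hcMr1 : 1 ≤ cMr := by rw [hw] at hw1; nlinarith only [hw1]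
  set q₀ : ℕ := ⌊(1 - ε₀) * x / cMr⌋₊ with hq₀
  have hy0 : 0 ≤ (1 - ε₀) * x / cMr := by
    apply div_nonneg _ (by linarith only [hw1, hεpos, hε1])
    apply mul_nonneg (by linarith only [hεpos, hε1]) hx0.le
  have hq1 : (q₀ : ℝ) ≤ (1 - ε₀) * x / cMr := Nat.floor_le hy0
  have hq2 : (1 - ε₀) * x / cMr < (q₀ : ℝ) + 1 := Nat.lt_floor_add_one _
  have hq3 : (q₀ : ℝ) * cMr ≤ (1 - ε₀) * x := by
    rwa [le_div_iff₀ (by linarith only [hw1, hεpos, hε1])] at hq1
  have hq4 : (1 - ε₀) * x < ((q₀ : ℝ) + 1) * cMr := by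
    rwa [div_lt_iff₀ (by linarith only [hw1, hεpos, hε1])] at hq2
  have hkc : (0 : ℝ) ≤ k * c := by positivity
  have hcM : (0 : ℝ) ≤ c * M := by positivity
  refine ⟨q₀, ?_, ?_, ?_⟩
  · have h1 : ((M * r * q₀ * c + k * c : ℕ) : ℝ) ≤ (n : ℝ) := by
      push_cast
      have h2 : (M : ℝ) * r * q₀ * c = (q₀ : ℝ) * cMr := by rw [hcMr]; ring
      rw [h2, ← hx]
      nlinarith only [hw1, hεpos, hε1, hxa, hq3, hcM]
    exact_mod_cast h1
  · push_cast
    have h2 : (M : ℝ) * r * q₀ * c = (q₀ : ℝ) * cMr := by rw [hcMr]; ring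
    rw [h2]
    exact hq3
  · intro X hX e N₀ he1 he2 hN₀
    set q : ℕ := M * r * q₀ with hq
    have hqR : (q : ℝ) * c = (q₀ : ℝ) * cMr := by
      rw [hq, hcMr]
      push_cast
      ring
    have hqle : (q : ℝ) * c ≤ x := by rw [hqR]; nlinarith only [hw1, hεpos, hε1, hxa, hq3, hkc, hcM]
    set P : ℝ := x ^ M / (C * M.factorial) with hP
    have hP0 : 0 ≤ P := by positivity
    -- (1) the main term
    have h1 : (lam M c : ℝ) * (q.choose M : ℝ) ≤ P := by
      have hl := lam_le M c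
      rw [← hCdef] at hl
      have hch := choose_le_div q M
      calc (lam M c : ℝ) * (q.choose M : ℝ) ≤
          (c : ℝ) ^ M / C * ((q : ℝ) ^ M / (M.factorial : ℝ)) :=
            mul_le_mul hl hch (by positivity) (by positivity)
        _ = ((q : ℝ) * c) ^ M / (C * M.factorial) := by
            rw [mul_pow]
            field_simp
        _ ≤ P := by
            rw [hP]
            apply div_le_div_of_nonneg_right _ (by positivity)
            exact pow_le_pow_left₀ (by positivity) hqle _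
    have h2 : (lam M c : ℝ) * e * (q.choose M : ℝ) ≤ e * P := by
      have := mul_le_mul_of_nonneg_left h1 (by linarith only [hεpos, hε1, he1] : (0 : ℝ) ≤ e)
      linarith only [this]
    have h3 : e * P - e * N₀ ≤ b * (δ * P) := by
      have h4 : P - N₀ ≤ δ * P := by
        have : (1 - δ) * P ≤ N₀ := hN₀
        linarith only [hN₀]
      have h5 : e * (P - N₀) ≤ e * (δ * P) := mul_le_mul_of_nonneg_left h4 (by linarith only [hεpos, hε1, he1])
      have h6 : e * (δ * P) ≤ b * (δ * P) :=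
        mul_le_mul_of_nonneg_right he2 (by positivity)
      linarith only [h5, h6]
    have h4 : b * (δ * P) ≤ A / 4 * x ^ M := by
      have h5 : P ≤ x ^ M := by
        rw [hP]
        apply div_le_self (by positivity)
        nlinarith only [hC', hfM]
      have h6 : b * δ = A / 4 := by
        rw [hδ]
        field_simp
      calc b * (δ * P) = A / 4 * P := by rw [← mul_assoc, h6]
        _ ≤ A / 4 * x ^ M := mul_le_mul_of_nonneg_left h5 (by positivity)
    -- (2) the junk
    have h5 : X - b * (c : ℝ) ^ M * (q.choose M : ℝ) ≤ A / 4 * x ^ M + K * x ^ (M - 1) := by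
      have h6 := pow_sub_le_choose q M
      have h7 : (1 - 2 * ε₀) * x ≤ ((q - M : ℕ) : ℝ) * c := by
        have h8 : (q : ℝ) - M ≤ ((q - M : ℕ) : ℝ) := by
          rcases Nat.le_total M q with h | h
          · rw [Nat.cast_sub h]
          · rw [Nat.sub_eq_zero_of_le h]
            have : (q : ℝ) ≤ M := by exact_mod_cast h
            push_cast
            linarith only [this]
        have h9 : ((q : ℝ) - M) * c ≤ ((q - M : ℕ) : ℝ) * c :=
          mul_le_mul_of_nonneg_right h8 (by linarith only [hc', hεpos, hε1])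
        have h10 : (q₀ : ℝ) * cMr - M * c ≤ ((q - M : ℕ) : ℝ) * c := by
          rw [← hqR]
          linarith only [h9]
        nlinarith only [hxa, hq4, hkc, hqR, h9]
      have h8 : ((1 - 2 * ε₀) * x) ^ M ≤ (c : ℝ) ^ M * ((q - M : ℕ) : ℝ) ^ M := by
        rw [mul_comm ((c : ℝ) ^ M), ← mul_pow]
        apply pow_le_pow_left₀ _ h7
        apply mul_nonneg (by linarith only [hεpos, hε1]) hx0.le
      have h9 : 1 - 2 * M * ε₀ ≤ (1 - 2 * ε₀) ^ M := by
        have := one_add_mul_le_pow (show (-2 : ℝ) ≤ -(2 * ε₀) by linarith only [hεpos, hε1]) M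
        have h10 : (1 + -(2 * ε₀)) = 1 - 2 * ε₀ := by ring
        rw [h10] at this
        linarith only [this]
      have h10 : (1 - 2 * M * ε₀) * x ^ M ≤ (c : ℝ) ^ M * ((q - M : ℕ) : ℝ) ^ M := by
        refine le_trans ?_ h8
        rw [mul_pow]
        exact mul_le_mul_of_nonneg_right h9 (by positivity)
      have h11 : b / M.factorial * ((1 - 2 * M * ε₀) * x ^ M) ≤
          b * (c : ℝ) ^ M * (q.choose M : ℝ) := by
        calc b / M.factorial * ((1 - 2 * M * ε₀) * x ^ M) ≤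
            b / M.factorial * ((c : ℝ) ^ M * ((q - M : ℕ) : ℝ) ^ M) :=
              mul_le_mul_of_nonneg_left h10 (by positivity)
          _ = b * (c : ℝ) ^ M * (((q - M : ℕ) : ℝ) ^ M / M.factorial) := by ring
          _ ≤ _ := mul_le_mul_of_nonneg_left h6 (by positivity)
      have h12 : b / M.factorial * (2 * M * ε₀ * x ^ M) ≤ A / 4 * x ^ M := by
        have h13 : b * (2 * M * ε₀) = A / 4 := by
          rw [hε]
          field_simp
          ring
        have h14 : b / M.factorial * (2 * M * ε₀ * x ^ M) =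
            (A / 4 * x ^ M) / M.factorial := by
          rw [← h13]
          ring
        rw [h14]
        exact div_le_self (by positivity) hfM
      have h15 : b * x ^ M / M.factorial = b / M.factorial * x ^ M := by ring
      rw [h15] at hX
      have h16 : b / M.factorial * ((1 - 2 * M * ε₀) * x ^ M) =
          b / M.factorial * x ^ M - b / M.factorial * (2 * M * ε₀ * x ^ M) := by ring
      linarith only [hX, h11, h12]
    -- (3) the gain
    have h6 : A * x ^ M ≤ (q₀ : ℝ) ^ M := by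
      have h7 : x / w ≤ (q₀ : ℝ) := by
        rw [div_le_iff₀ hwpos]
        have h8 : w = 2 * cMr := by rw [hw, hcMr]; ring
        rw [h8]
        nlinarith
      have h8 : A * x ^ M = (x / w) ^ M := by
        rw [hA, div_pow, div_pow, one_pow]
        ring
      rw [h8]
      exact pow_le_pow_left₀ (by positivity) h7 _
    -- (4) the rest
    have h7 : e * (b - e) ≤ b * b := by nlinarith only [hb1, he1, he2, hεpos, hε1]
    have h8 : K * x ^ (M - 1) + b * b < A / 2 * x ^ M := by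
      have h9 : x ^ M = x ^ (M - 1) * x := by
        rw [← pow_succ]
        congr 1
        omega
      have h10 : 1 ≤ x ^ (M - 1) := one_le_pow₀ hx1
      rw [h9]
      have h11 : K * x ^ (M - 1) + b * b ≤ x ^ (M - 1) * (K + b * b) := by nlinarith only [h10]
      have h12 : x ^ (M - 1) * (K + b * b) < A / 2 * (x ^ (M - 1) * x) := by
        have h13 : K + b * b < A / 2 * x := by nlinarith only [hεpos, hε1, hxb]
        have h14 := mul_lt_mul_of_pos_left h13 (by linarith only [hεpos, hε1, h10] : (0 : ℝ) < x ^ (M - 1))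
        linarith only [h14]
      linarith only [h11, h12]
    linarith only [h2, h3, h4, h5, h6, h7, h8]

end Pool.Agent.V7.BE
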